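import Mathlib

namespace Pool.Agent.Results.MP_0d307c_co.Thin

variable {G : Type} [Group G] {r : ℕ}

/-- The parabolic subgroup generated by all generators but the `i`-th. -/
def par (ρ : Fin r → G) (i : Fin r) : Subgroup G := Subgroup.closure (ρ '' {j | j ≠ i})

/-- Elements of the coset geometry: a type `i` together with a right coset of `par ρ i`. -/
def Elt (ρ : Fin r → G) : Type :=
  {x : Fin r × Set G // ∃ g : G, x.2 = (fun h => h * g) '' (par ρ x.1 : Set G)}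

def Inc (ρ : Fin r → G) (x y : Elt ρ) : Prop := (x.1.2 ∩ y.1.2).Nonempty

def IsFlag (ρ : Fin r → G) (F : Set (Elt ρ)) : Prop := ∀ x ∈ F, ∀ y ∈ F, Inc ρ x y

def IsChamber (ρ : Fin r → G) (C : Set (Elt ρ)) : Prop :=
  IsFlag ρ C ∧ ∀ i : Fin r, ∃ x ∈ C, x.1.1 = i

def residue (ρ : Fin r → G) (F : Set (Elt ρ)) : Set (Elt ρ) :=
  {x | x ∉ F ∧ ∀ y ∈ F, x.1.1 ≠ y.1.1 ∧ Inc ρ x y}

def IsThin (ρ : Fin r → G) : Prop :=
  ∀ F : Set (Elt ρ), IsFlag ρ F → F.ncard + 1 = r → {C | IsChamber ρ C ∧ F ⊆ C}.ncard = 2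

def ResConn (ρ : Fin r → G) : Prop :=
  ∀ F : Set (Elt ρ), IsFlag ρ F → F.ncard + 2 ≤ r →
    ((SimpleGraph.fromRel (Inc ρ)).induce (residue ρ F)).Preconnected

def FlagTrans (ρ : Fin r → G) : Prop :=
  ∀ C D : Set (Elt ρ), IsChamber ρ C → IsChamber ρ D →
    ∃ g : G, (fun x : Elt ρ => x.1) '' D =
      (fun x : Elt ρ => (x.1.1, (fun h => h * g) '' x.1.2)) '' C

/-- The element of type `i` through `g`. -/
def el (ρ : Fin r → G) (g : G) (i : Fin r) : Elt ρ :=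
  ⟨(i, (fun h => h * g) '' (par ρ i : Set G)), g, rfl⟩

lemma mem_el (ρ : Fin r → G) (g : G) (i : Fin r) (a : G) :
    a ∈ (el ρ g i).1.2 ↔ a * g⁻¹ ∈ par ρ i := by
  constructor
  · rintro ⟨h, hh, rfl⟩
    simpa using hh
  · intro h
    exact ⟨_, h, by simp⟩

lemma eq_el (ρ : Fin r → G) (x : Elt ρ) (a : G) (ha : a ∈ x.1.2) : x = el ρ a x.1.1 := by
  obtain ⟨⟨i, S⟩, g, hg⟩ := x
  simp only at hg ha
  subst hg
  apply Subtype.ext
  refine Prod.ext rfl ?_
  have ha' : a * g⁻¹ ∈ par ρ i := (mem_el ρ g i a).1 ha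
  ext b
  change b ∈ (el ρ g i).1.2 ↔ b ∈ (el ρ a i).1.2
  rw [mem_el, mem_el]
  constructor
  · intro hb
    have := (par ρ i).mul_mem hb ((par ρ i).inv_mem ha')
    simpa [mul_assoc] using this
  · intro hb
    have := (par ρ i).mul_mem hb ha'
    simpa [mul_assoc] using this

lemma eq_of_inc (ρ : Fin r → G) {x y : Elt ρ} (h : Inc ρ x y) (ht : x.1.1 = y.1.1) : x = y := by
  obtain ⟨a, hx, hy⟩ := h
  rw [eq_el ρ x a hx, eq_el ρ y a hy, ht]

lemma inc_symm (ρ : Fin r → G) {x y : Elt ρ} (h : Inc ρ x y) : Inc ρ y x := by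
  obtain ⟨a, hx, hy⟩ := h
  exact ⟨a, hy, hx⟩

lemma inc_self (ρ : Fin r → G) (x : Elt ρ) : Inc ρ x x := by
  obtain ⟨g, hg⟩ := x.2
  refine ⟨g, ?_, ?_⟩ <;> rw [hg] <;> exact ⟨1, (par ρ _).one_mem, by simp⟩

lemma ch_chamber (ρ : Fin r → G) (g : G) : IsChamber ρ (Set.range (el ρ g)) := by
  refine ⟨?_, fun i => ⟨el ρ g i, ⟨i, rfl⟩, rfl⟩⟩
  rintro _ ⟨i, rfl⟩ _ ⟨j, rfl⟩
  exact ⟨g, (mem_el ρ g i g).2 (by simp), (mem_el ρ g j g).2 (by simp)⟩

lemma flag_inj (ρ : Fin r → G) {F : Set (Elt ρ)} (hF : IsFlag ρ F) :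
    Set.InjOn (fun x : Elt ρ => x.1.1) F :=
  fun x hx y hy h => eq_of_inc ρ (hF x hx y hy) h

lemma flag_finite (ρ : Fin r → G) {F : Set (Elt ρ)} (hF : IsFlag ρ F) : F.Finite :=
  Set.Finite.of_finite_image (Set.toFinite _) (flag_inj ρ hF)

lemma flag_card (ρ : Fin r → G) {F : Set (Elt ρ)} (hF : IsFlag ρ F) :
    ((fun x : Elt ρ => x.1.1) '' F).ncard = F.ncard :=
  Set.InjOn.ncard_image (flag_inj ρ hF)

lemma flag_insert (ρ : Fin r → G) {F : Set (Elt ρ)} (hF : IsFlag ρ F) {x : Elt ρ}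
    (hx : x ∈ residue ρ F) : IsFlag ρ (insert x F) := by
  rintro a (rfl | ha) b (rfl | hb)
  · exact inc_self ρ _
  · exact (hx.2 b hb).2
  · exact inc_symm ρ (hx.2 a ha).2
  · exact hF a ha b hb

lemma card_lt (ρ : Fin r → G) {F : Set (Elt ρ)} (hF : IsFlag ρ F) {x : Elt ρ}
    (hx : x ∈ residue ρ F) : F.ncard + 1 ≤ r := by
  have h1 := flag_card ρ (flag_insert ρ hF hx)
  rw [Set.ncard_insert_of_notMem hx.1 (flag_finite ρ hF)] at h1
  rw [← h1]
  have := Set.ncard_le_card ((fun x : Elt ρ => x.1.1) '' insert x F)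
  simpa using this

lemma el_res (ρ : Fin r → G) {F : Set (Elt ρ)} {g : G} (hF : F ⊆ Set.range (el ρ g))
    {i : Fin r} (hi : ∀ y ∈ F, i ≠ y.1.1) : el ρ g i ∈ residue ρ F :=
  ⟨fun h => hi _ h rfl, fun y hy => ⟨hi y hy, (ch_chamber ρ g).1 _ ⟨i, rfl⟩ _ (hF hy)⟩⟩

lemma corank_one (ρ : Fin r → G) (hno : ∀ i, ρ i ∉ par ρ i) (hT : IsThin ρ) {F : Set (Elt ρ)}
    {g : G} (hF : F ⊆ Set.range (el ρ g)) (hc : F.ncard + 1 = r) {x : Elt ρ}
    (hx : x ∈ residue ρ F) : ∃ g', insert x F ⊆ Set.range (el ρ g') := by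
  have hfl : IsFlag ρ F := fun a ha b hb => (ch_chamber ρ g).1 a (hF ha) b (hF hb)
  set i := x.1.1 with hi
  have hF2 : F ⊆ Set.range (el ρ (ρ i * g)) := by
    intro y hy
    obtain ⟨j, rfl⟩ := hF hy
    refine ⟨j, (eq_el ρ (el ρ g j) (ρ i * g) ?_).symm⟩
    rw [mem_el]
    have hij : i ≠ j := (hx.2 _ hy).1
    simp only [mul_inv_cancel_right]
    exact Subgroup.subset_closure ⟨i, hij, rfl⟩
  have hne : Set.range (el ρ g) ≠ Set.range (el ρ (ρ i * g)) := by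
    intro h
    have h1 : el ρ (ρ i * g) i ∈ Set.range (el ρ g) := h ▸ ⟨i, rfl⟩
    obtain ⟨j, hj⟩ := h1
    have hji : j = i := congrArg (fun z : Elt ρ => z.1.1) hj
    rw [hji] at hj
    have h2 : ρ i * g ∈ (el ρ g i).1.2 := by
      rw [hj, mem_el]; simp
    rw [mem_el] at h2
    exact hno i (by simpa using h2)
  have hch : IsChamber ρ (insert x F) := by
    refine ⟨flag_insert ρ hfl hx, fun j => ?_⟩
    have h1 := flag_card ρ (flag_insert ρ hfl hx)
    rw [Set.ncard_insert_of_notMem hx.1 (flag_finite ρ hfl), hc] at h1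
    have h2 : (fun x : Elt ρ => x.1.1) '' insert x F = Set.univ := by
      apply Set.eq_of_subset_of_ncard_le (Set.subset_univ _)
      rw [h1]; simp
    have h3 : j ∈ (fun x : Elt ρ => x.1.1) '' insert x F := h2 ▸ Set.mem_univ j
    exact h3
  have h2 := hT F hfl hc
  have hsub : ({Set.range (el ρ g), Set.range (el ρ (ρ i * g))} : Set (Set (Elt ρ))) ⊆
      {C | IsChamber ρ C ∧ F ⊆ C} := by
    rintro C (rfl | rfl)
    · exact ⟨ch_chamber ρ g, hF⟩
    · exact ⟨ch_chamber ρ _, hF2⟩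
  have heq := Set.eq_of_subset_of_ncard_le hsub (by rw [h2, Set.ncard_pair hne])
    (Set.finite_of_ncard_ne_zero (by rw [h2]; norm_num))
  have hm : insert x F ∈ ({Set.range (el ρ g), Set.range (el ρ (ρ i * g))} :
      Set (Set (Elt ρ))) := heq ▸ ⟨hch, Set.subset_insert _ _⟩
  rcases hm with h | h
  · exact ⟨g, h.le⟩
  · exact ⟨_, le_of_eq h⟩

lemma step (ρ : Fin r → G) (hno : ∀ i, ρ i ∉ par ρ i) (hT : IsThin ρ) (hR : ResConn ρ) (k : ℕ) :
    ∀ (F : Set (Elt ρ)) (g : G), F ⊆ Set.range (el ρ g) → F.ncard + 1 + k = r →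
      ∀ x ∈ residue ρ F, ∃ g', insert x F ⊆ Set.range (el ρ g') := by
  induction k with
  | zero => exact fun F g hF hc x hx => corank_one ρ hno hT hF hc hx
  | succ k ih =>
    intro F g hF hc x hx
    have hfl : IsFlag ρ F := fun a ha b hb => (ch_chamber ρ g).1 a (hF ha) b (hF hb)
    have h0 : el ρ g x.1.1 ∈ residue ρ F := el_res ρ hF (fun y hy => (hx.2 y hy).1)
    have hreach := hR F hfl (by omega) ⟨_, h0⟩ ⟨x, hx⟩
    rw [SimpleGraph.reachable_iff_reflTransGen] at hreach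
    have key : ∀ z : residue ρ F, Relation.ReflTransGen
        ((SimpleGraph.fromRel (Inc ρ)).induce (residue ρ F)).Adj ⟨_, h0⟩ z →
        ∃ g', insert z.1 F ⊆ Set.range (el ρ g') := by
      intro z hz
      induction hz with
      | refl => exact ⟨g, Set.insert_subset ⟨_, rfl⟩ hF⟩
      | @tail b c _ hbc ihz =>
        obtain ⟨g', hg'⟩ := ihz
        have hadj : (SimpleGraph.fromRel (Inc ρ)).Adj b.1 c.1 := hbc
        rw [SimpleGraph.fromRel_adj] at hadj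
        have hinc : Inc ρ c.1 b.1 := hadj.2.elim (inc_symm ρ) id
        have hres : c.1 ∈ residue ρ (insert b.1 F) := by
          refine ⟨?_, ?_⟩
          · rintro (h | h)
            · exact hadj.1 h.symm
            · exact c.2.1 h
          · rintro y (rfl | hy)
            · exact ⟨fun h => hadj.1 (eq_of_inc ρ hinc h).symm, hinc⟩
            · exact c.2.2 y hy
        obtain ⟨g'', hg''⟩ := ih (insert b.1 F) g' hg'
          (by rw [Set.ncard_insert_of_notMem b.2.1 (flag_finite ρ hfl)]; omega) c.1 hres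
        exact ⟨g'', (Set.insert_subset_insert (Set.subset_insert _ _)).trans hg''⟩
    exact key ⟨x, hx⟩ hreach

lemma flag_sub (ρ : Fin r → G) (hno : ∀ i, ρ i ∉ par ρ i) (hT : IsThin ρ) (hR : ResConn ρ)
    {F : Set (Elt ρ)} (hF : IsFlag ρ F) : ∃ g, F ⊆ Set.range (el ρ g) := by
  have hfin := flag_finite ρ hF
  induction F, hfin using Set.Finite.induction_on with
  | empty => exact ⟨1, Set.empty_subset _⟩
  | @insert x F hx hfin ih =>
    have hF' : IsFlag ρ F := fun a ha b hb => hF a (Or.inr ha) b (Or.inr hb)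
    obtain ⟨g, hg⟩ := ih hF'
    have hres : x ∈ residue ρ F := by
      refine ⟨hx, fun y hy => ⟨fun h => ?_, hF x (Or.inl rfl) y (Or.inr hy)⟩⟩
      exact hx (eq_of_inc ρ (hF x (Or.inl rfl) y (Or.inr hy)) h ▸ hy)
    have hle := card_lt ρ hF' hres
    exact step ρ hno hT hR (r - (F.ncard + 1)) F g hg (by omega) x hres

lemma chamber_eq (ρ : Fin r → G) (hno : ∀ i, ρ i ∉ par ρ i) (hT : IsThin ρ) (hR : ResConn ρ)
    {C : Set (Elt ρ)} (hC : IsChamber ρ C) : ∃ g, C = Set.range (el ρ g) := by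
  obtain ⟨g, hg⟩ := flag_sub ρ hno hT hR hC.1
  refine ⟨g, hg.antisymm ?_⟩
  rintro _ ⟨i, rfl⟩
  obtain ⟨x, hx, hxi⟩ := hC.2 i
  obtain ⟨j, rfl⟩ := hg hx
  have : j = i := hxi
  exact this ▸ hx

theorem result (G : Type) [Group G] (r : ℕ) (ρ : Fin r → G)
    (_hinj : Function.Injective ρ) (hinv : ∀ i, orderOf (ρ i) = 2)
    (_hgen : Subgroup.closure (Set.range ρ) = ⊤)
    (hint : ∀ I J : Set (Fin r), Subgroup.closure (ρ '' I) ⊓ Subgroup.closure (ρ '' J) =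
      Subgroup.closure (ρ '' (I ∩ J)))
    (hT : IsThin ρ) (hR : ResConn ρ) : FlagTrans ρ := by
  have hno : ∀ i, ρ i ∉ par ρ i := by
    intro i hi
    have h1 : ρ i ∈ Subgroup.closure (ρ '' {i}) ⊓ Subgroup.closure (ρ '' {j | j ≠ i}) :=
      ⟨Subgroup.subset_closure ⟨i, rfl, rfl⟩, hi⟩
    rw [hint] at h1
    have h2 : ({i} : Set (Fin r)) ∩ {j | j ≠ i} = ∅ := by
      ext j; simp
    rw [h2] at h1
    have h3 : ρ i = 1 := by simpa using h1
    have := hinv i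
    rw [h3] at this
    simp at this
  intro C D hC hD
  obtain ⟨a, rfl⟩ := chamber_eq ρ hno hT hR hC
  obtain ⟨b, rfl⟩ := chamber_eq ρ hno hT hR hD
  refine ⟨a⁻¹ * b, ?_⟩
  rw [← Set.range_comp, ← Set.range_comp]
  congr 1
  funext i
  refine Prod.ext rfl ?_
  simp only [el, Function.comp, Set.image_image]
  congr 1
  funext h
  group

end Pool.Agent.Results.MP_0d307c_co.Thin
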